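import Pool.Agent.Helper669.Forcing

/-!
# MP_becacd: tree Prikry forcing adds no fresh subsets of ordinals of cofinality above `κ`

The forcing language is that of `Pool.Agent.Helper669.Forcing`: a sentence is the set of the
conditions which force it, and a name for a subset of a ground model set `X` is a map from `X`
to sets of conditions.
-/

universe u v

open Set Cardinal

namespace Pool.Agent.Results.MP_becacd_lc.NoFreshSubsets

open Pool.Agent.Helper669.Forcing

section Language

variable {P : Type u} [Preorder P]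

/-- `φ` iff `ψ`. -/
def fiff (φ ψ : Set P) : Set P := fand (fimp φ ψ) (fimp ψ φ)

/-- The named subset `A` of `L` belongs to the ground model: for some ground model set `a`, for
all `β`, `β ∈ A` iff `β ∈ a`. -/
def InGround {L : Type v} (A : L → Set P) : Set P :=
  fex fun a : Set L => fall fun β => fiff (meets (A β)) (fground (β ∈ a))

/-- The initial segment `A ∩ α` of the named subset `A` of `L` belongs to the ground model. -/
def SegInGround {L : Type v} [LT L] (A : L → Set P) (α : L) : Set P :=
  fex fun a : Set L => fall fun β => fall fun _ : β < α => fiff (meets (A β)) (fground (β ∈ a))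

/-- The named subset `A` of `L` is fresh: all its proper initial segments belong to the ground
model, but `A` does not. -/
def Fresh {L : Type v} [LT L] (A : L → Set P) : Set P :=
  fand (fall fun α => SegInGround A α) (fnot (InGround A))

end Language

/-- The conditions of tree Prikry forcing for an ultrafilter `U` on a linearly ordered set `K`:
a finite increasing sequence `stem` and a tree `tree` of finite increasing sequences with that
stem, all of whose nodes extending the stem have a `U`-large set of successors. -/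
structure TreePrikry {K : Type u} [LinearOrder K] (U : Ultrafilter K) where
  /-- the stem `s` -/
  stem : List K
  /-- the tree `T` -/
  tree : Set (List K)
  increasing : ∀ t ∈ tree, t.Pairwise (· < ·)
  closed : ∀ t ∈ tree, ∀ s, s <+: t → s ∈ tree
  stem_mem : stem ∈ tree
  comparable : ∀ t ∈ tree, t <+: stem ∨ stem <+: t
  splits : ∀ t ∈ tree, stem <+: t → {α | t ++ [α] ∈ tree} ∈ U

/-- `(t, S) ≤ (s, T)` iff `t ∈ T`, `t` end-extends `s` and `S ⊆ T`. -/
instance {K : Type u} [LinearOrder K] (U : Ultrafilter K) : Preorder (TreePrikry U) where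
  le q p := q.stem ∈ p.tree ∧ p.stem <+: q.stem ∧ q.tree ⊆ p.tree
  le_refl p := ⟨p.stem_mem, List.prefix_rfl, subset_rfl⟩
  le_trans _ _ _ h1 h2 := ⟨h2.2.2 h1.1, h2.2.1.trans h1.2.1, h1.2.2.trans h2.2.2⟩

variable {K : Type u} [LinearOrder K] {U : Ultrafilter K}

/-- Restricting a condition `w` to the tree of a condition `r` containing the stem of `w`. -/
def meet (w r : TreePrikry U) (h : w.stem ∈ r.tree) (hr : r.stem <+: w.stem) :
    TreePrikry U where
  stem := w.stem
  tree := w.tree ∩ r.tree
  increasing t ht := w.increasing t ht.1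
  closed t ht s hs := ⟨w.closed t ht.1 s hs, r.closed t ht.2 s hs⟩
  stem_mem := ⟨w.stem_mem, h⟩
  comparable t ht := w.comparable t ht.1
  splits t ht hs := Filter.inter_mem (w.splits t ht.1 hs) (r.splits t ht.2 (hr.trans hs))

theorem meet_le_left (w r : TreePrikry U) (h : w.stem ∈ r.tree) (hr : r.stem <+: w.stem) :
    meet w r h hr ≤ w := ⟨w.stem_mem, List.prefix_rfl, inter_subset_left⟩

theorem meet_le_right (w r : TreePrikry U) (h : w.stem ∈ r.tree) (hr : r.stem <+: w.stem) :
    meet w r h hr ≤ r := ⟨h, hr, inter_subset_right⟩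

/-- Pigeonhole for cofinal sets. -/
theorem pigeonhole {L : Type u} [LinearOrder L] {Y : Type u} (hY : #Y < Order.cof L)
    {X : Set L} (hX : IsCofinal X) (f : L → Y) : ∃ y, IsCofinal {α | α ∈ X ∧ f α = y} := by
  by_contra hcon
  push Not at hcon
  have hex : ∀ y, ∃ b, ∀ α ∈ X, f α = y → α < b := by
    intro y
    have h := hcon y
    unfold IsCofinal at h
    push Not at h
    obtain ⟨b, hb⟩ := h
    exact ⟨b, fun α hα hf => hb α ⟨hα, hf⟩⟩
  choose b hb using hex
  have hnc : ¬ IsCofinal (range b) := fun h =>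
    absurd ((Order.cof_le h).trans mk_range_le) (not_le.mpr hY)
  unfold IsCofinal at hnc
  push Not at hnc
  obtain ⟨c, hc⟩ := hnc
  obtain ⟨α, hα, hcα⟩ := hX c
  exact absurd (hb (f α) α hα rfl) (not_lt.mpr ((hc _ ⟨f α, rfl⟩).le.trans hcα))

/-- The heart of the argument. -/
theorem decide_name {L : Type u} [LinearOrder L] (hK : ℵ₀ ≤ #K) (hL : #K < Order.cof L)
    (A : L → Set (TreePrikry U)) (q : TreePrikry U) (hq : ∀ α, q ∈ SegInGround A α) :
    ∃ r ≤ q, r ∈ InGround A := by
  classical
  have hK0 : Nonempty K := by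
    rw [← mk_ne_zero_iff]
    exact (aleph0_pos.trans_le hK).ne'
  have hKinf : Infinite K := infinite_iff.mpr hK
  have hlist : #(List K) < Order.cof L := by
    rw [mk_list_eq_mk]
    exact hL
  have hnomax : ∀ β : L, ∃ α, β < α := by
    intro β
    by_contra hcon
    push Not at hcon
    have h1 : IsCofinal ({β} : Set L) := fun x => ⟨β, rfl, hcon x⟩
    have h2 := Order.cof_le h1
    rw [mk_singleton] at h2
    exact absurd (hL.trans_le h2) (not_lt.mpr (one_le_aleph0.trans hK))
  -- conditions deciding the initial segments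
  have hdec : ∀ α, ∃ r ≤ q, ∃ a : Set L, r ∈ fall fun β => fall fun _ : β < α =>
      fiff (meets (A β)) (fground (β ∈ a)) := fun α => mem_fex.mp (hq α) q le_rfl
  choose r hrq a hra using hdec
  -- many of them have the same stem
  obtain ⟨s, hX⟩ := pigeonhole hlist (X := Set.univ) (fun x => ⟨x, mem_univ x, le_rfl⟩)
    (fun α => (r α).stem)
  set X : Set L := {α | α ∈ (Set.univ : Set L) ∧ (r α).stem = s} with hXdef
  have hXs : ∀ α ∈ X, (r α).stem = s := fun α hα => hα.2
  obtain ⟨α0, hα0, -⟩ := hX (Classical.choice (by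
    by_contra hcon
    rw [not_nonempty_iff] at hcon
    exact absurd hL (not_lt.mpr ((Order.cof_eq_zero_iff.mpr hcon).le.trans zero_le))))
  -- the fusion tree
  let T : Set (List K) := {t | (s <+: t ∧ IsCofinal {α | α ∈ X ∧ t ∈ (r α).tree}) ∨ t <+: s}
  have hTr : T ⊆ q.tree := by
    rintro t (⟨_, ht⟩ | ht)
    · obtain ⟨α, hα, _⟩ := ht α0
      exact (hrq α).2.2 hα.2
    · exact (hrq α0).2.2 ((r α0).closed _ (hXs α0 hα0 ▸ (r α0).stem_mem) t ht)
  have hsT : IsCofinal {α | α ∈ X ∧ s ∈ (r α).tree} := by
    intro x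
    obtain ⟨α, hα, hx⟩ := hX x
    exact ⟨α, ⟨hα, hXs α hα ▸ (r α).stem_mem⟩, hx⟩
  let R : TreePrikry U :=
    { stem := s
      tree := T
      increasing := fun t ht => q.increasing t (hTr ht)
      closed := by
        rintro t (⟨hst, ht⟩ | ht) t' ht'
        · rcases List.prefix_or_prefix_of_prefix hst ht' with h | h
          · refine Or.inl ⟨h, fun x => ?_⟩
            obtain ⟨α, hα, hx⟩ := ht x
            exact ⟨α, ⟨hα.1, (r α).closed t hα.2 t' ht'⟩, hx⟩
          · exact Or.inr h
        · exact Or.inr (ht'.trans ht)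
      stem_mem := Or.inr List.prefix_rfl
      comparable := by
        rintro t (⟨hst, _⟩ | ht)
        · exact Or.inr hst
        · exact Or.inl ht
      splits := by
        intro t ht hst
        have htc : IsCofinal {α | α ∈ X ∧ t ∈ (r α).tree} := by
          rcases ht with ⟨_, ht⟩ | ht
          · exact ht
          · have : t = s := ht.eq_of_length_le hst.length_le
            rw [this]
            exact hsT
        by_contra hcon
        have hE := Ultrafilter.compl_mem_iff_notMem.mpr hcon
        -- choose a successor in the bad set for each of the conditions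
        have hch : ∀ α : L, ∃ ξ : K, (α ∈ X ∧ t ∈ (r α).tree) →
            ξ ∈ {ξ | t ++ [ξ] ∈ T}ᶜ ∧ t ++ [ξ] ∈ (r α).tree := by
          intro α
          by_cases hα : α ∈ X ∧ t ∈ (r α).tree
          · have h1 : {ξ | t ++ [ξ] ∈ (r α).tree} ∈ U :=
              (r α).splits t hα.2 (by rw [hXs α hα.1]; exact hst)
            obtain ⟨ξ, h2, h3⟩ := Ultrafilter.nonempty_of_mem (Filter.inter_mem hE h1)
            exact ⟨ξ, fun _ => ⟨h2, h3⟩⟩
          · exact ⟨Classical.arbitrary K, fun h => absurd h hα⟩
        choose f hf using hch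
        obtain ⟨ξ, hξ⟩ := pigeonhole hL htc f
        obtain ⟨β, ⟨hβ, hβξ⟩, -⟩ := hξ α0
        refine (hf β hβ).1 ?_
        rw [hβξ]
        refine Or.inl ⟨hst.trans (List.prefix_append _ _), fun x => ?_⟩
        obtain ⟨α, ⟨hα, hαξ⟩, hx⟩ := hξ x
        refine ⟨α, ⟨hα.1, ?_⟩, hx⟩
        have := (hf α hα).2
        rwa [hαξ] at this }
  have hRq : R ≤ q := by
    refine ⟨hTr (Or.inr List.prefix_rfl), ?_, hTr⟩
    have := (hrq α0).2.1
    rwa [hXs α0 hα0] at this
  -- a condition below any given `w ≤ R`, and below one of the `r α`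
  have hbelow : ∀ w ≤ R, ∀ β, ∃ α ∈ X, β < α ∧ ∃ w' ≤ w, w' ≤ r α := by
    intro w hw β
    have hwT : IsCofinal {α | α ∈ X ∧ w.stem ∈ (r α).tree} := by
      have h1 : w.stem ∈ T := hw.1
      rcases h1 with ⟨_, h1⟩ | h1
      · exact h1
      · have : w.stem = s := h1.eq_of_length_le (hw.2.1 : s <+: w.stem).length_le
        rw [this]
        exact hsT
    obtain ⟨γ, hγ⟩ := hnomax β
    obtain ⟨α, hα, hx⟩ := hwT γ
    have hst : (r α).stem <+: w.stem := by
      rw [hXs α hα.1]
      exact hw.2.1
    exact ⟨α, hα.1, hγ.trans_le hx, meet w (r α) hα.2 hst, meet_le_left _ _ _ _,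
      meet_le_right _ _ _ _⟩
  -- coherence
  have hcoh : ∀ α ∈ X, ∀ α' ∈ X, ∀ β, β < α → β < α' → β ∈ a α → β ∈ a α' := by
    intro α hα α' hα' β hβ hβ' hmem
    have hst : (r α).stem ∈ (r α').tree := by
      rw [hXs α hα, ← hXs α' hα']
      exact (r α').stem_mem
    have hst' : (r α').stem <+: (r α).stem := by
      rw [hXs α hα, hXs α' hα']
    set w := meet (r α) (r α') hst hst'
    have h1 : w ∈ fiff (meets (A β)) (fground (β ∈ a α)) :=
      down_fand (down_fimp _ _) (down_fimp _ _) _ (hra α β hβ) _ (meet_le_left _ _ _ _)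
    have h2 : w ∈ fiff (meets (A β)) (fground (β ∈ a α')) :=
      down_fand (down_fimp _ _) (down_fimp _ _) _ (hra α' β hβ') _ (meet_le_right _ _ _ _)
    obtain ⟨w1, hw1, hm⟩ := mem_fimp.mp h1.2 w le_rfl hmem
    obtain ⟨w2, _, hm2⟩ := mem_fimp.mp h2.1 w1 hw1 hm
    exact hm2
  refine ⟨R, hRq, ?_⟩
  refine mem_fex_of_mem {β | ∃ α ∈ X, β < α ∧ β ∈ a α}
    (down_fall fun _ => down_fand (down_fimp _ _) (down_fimp _ _)) ?_
  intro β
  constructor
  · rw [mem_fimp]
    intro w hw hwA
    obtain ⟨α, hα, hβα, w', hw', hw'r⟩ := hbelow w hw β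
    obtain ⟨w2, _, h2⟩ := mem_fimp.mp (hra α β hβα).1 w' hw'r (down_meets _ _ hwA _ hw')
    exact ⟨w', hw', α, hα, hβα, h2⟩
  · rw [mem_fimp]
    intro w hw hwa
    obtain ⟨α1, hα1, hβα1, hmem⟩ := hwa
    obtain ⟨α, hα, hβα, w', hw', hw'r⟩ := hbelow w hw β
    obtain ⟨w2, hw2, h2⟩ := mem_fimp.mp (hra α β hβα).2 w' hw'r
      (hcoh α1 hα1 α hα β hβα1 hβα hmem)
    exact ⟨w2, hw2.trans hw', h2⟩

/-- **Main theorem.** Let `κ` be an infinite cardinal, `U` any ultrafilter on `κ` (in particular any
`κ`-complete non-principal ultrafilter on a measurable cardinal `κ`, normal or not, with or without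
the Galvin property), and let `L` be a linear order of cofinality greater than `κ` (for instance
the well-order `κ⁺`, or any ordinal of cofinality greater than `κ`). Then every condition of tree
Prikry forcing for `U` forces that there is no fresh subset of `L`. -/
theorem result (κ : Cardinal.{u}) (hκ : ℵ₀ ≤ κ) (U : Ultrafilter κ.ord.ToType)
    (L : Type u) [LinearOrder L] (hL : κ < Order.cof L) (p : TreePrikry U) :
    p ∈ fnot (fex fun A : L → Set (TreePrikry U) => Fresh A) := by
  intro q _ hq
  obtain ⟨r, -, A, hA⟩ := mem_fex.mp hq q le_rfl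
  obtain ⟨w, hw, hw'⟩ := decide_name (by rwa [mk_ord_toType]) (by rwa [mk_ord_toType]) A r hA.1
  exact hA.2 w hw hw'

end Pool.Agent.Results.MP_becacd_lc.NoFreshSubsets
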